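import Mathlib
import Pool.Agent.Lib.MP_ab0522.Proof

/-!
# MP_ab0522_gt: two positive metrics which do not lie in a common flat cone

On `L = O(1)` over `X = ℙ¹` there are two real-analytic, rotation invariant positive metrics
`φ₀`, `φ₁` such that, whatever the volume form, no map `E_{φ,F} : C(F) → {positive metrics}`,
`f ↦ φ^f`, given by a continuous positive metric `φ` and a bounded graded filtration `F`, has both
of them in its image.  The definitions are in `Pool/Agent/Lib/MP_ab0522/Defs.lean`, the metrics in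
`Pool/Agent/Lib/MP_ab0522/Explicit.lean` and the proof ends in
`Pool/Agent/Lib/MP_ab0522/Proof.lean`.
-/

namespace Pool.Agent.Results.MP_ab0522_gt.NoCommonFlatCone

open Pool.Agent.Lib.MP_ab0522
open scoped ContDiff

/-- There are two continuous (even real-analytic) positive metrics on `O(1) → ℙ¹`, invariant under
rotations, which do not lie in the image of one map `E_{φ,F}`, for any continuous positive metric
`φ`, any bounded graded filtration `F` and any volume form `dV`. -/
theorem result : ∃ φ₀ φ₁ : PositiveMetric,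
    (ContDiff ℝ ω φ₀.wt ∧ ContDiff ℝ ω φ₀.wtInf ∧ ContDiff ℝ ω φ₁.wt ∧ ContDiff ℝ ω φ₁.wtInf) ∧
    (∀ z : ℂ, φ₀.wt z = φ₀.wt ‖z‖ ∧ φ₁.wt z = φ₁.wt ‖z‖) ∧
    ∀ dV : VolumeForm, ¬ InCommonFlatCone dV φ₀ φ₁ :=
  ⟨metric0, metric1, ⟨h0_contDiff, h1_contDiff, h1_contDiff, h0_contDiff⟩, rotation_invariant,
    not_inCommonFlatCone⟩

end Pool.Agent.Results.MP_ab0522_gt.NoCommonFlatCone
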